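import Pool.Agent.H809Z.Ball.Basic

open scoped Topology ENNReal InnerProductSpace
open Filter Metric Set MeasureTheory

namespace Pool.Agent.H809Z.Ball

namespace StepA

/-- determinants are bounded by powers of the operator norm -/
lemma det_le (n : ℕ) : ∃ K : ℝ, 0 ≤ K ∧ ∀ (T : En n →L[ℂ] En n) (b : ℝ), ‖T‖ ≤ b →
    ‖T.det‖ ≤ K * b ^ n := by
  have : ProperSpace (En n →L[ℂ] En n) := FiniteDimensional.proper ℂ _
  obtain ⟨K, hK⟩ := (isCompact_closedBall (0 : En n →L[ℂ] En n) 1).exists_bound_of_continuousOn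
    (ContinuousLinearMap.continuous_det (𝕜 := ℂ) (E := En n)).continuousOn
  refine ⟨K, (norm_nonneg _).trans (hK 0 (mem_closedBall_self zero_le_one)), fun T b hb => ?_⟩
  have hb0 : 0 ≤ b := (norm_nonneg _).trans hb
  set T' : En n →L[ℂ] En n := ((b⁻¹ : ℝ) : ℂ) • T with hT'
  have h1 : T = (b : ℂ) • T' := by
    rcases hb0.eq_or_lt with h | h
    · have : T = 0 := norm_le_zero_iff.mp (h ▸ hb)
      rw [hT', this]
      ext1 x
      simp
    · rw [hT', smul_smul, ← Complex.ofReal_mul, mul_inv_cancel₀ h.ne']; simp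
  have h2 : ‖T'‖ ≤ 1 := by
    rw [hT', norm_smul, Complex.norm_real, Real.norm_of_nonneg (by positivity)]
    rcases hb0.eq_or_lt with h | h
    · rw [← h]; simp
    · rw [inv_mul_le_iff₀ h]; linarith
  have h3 : T.det = (b : ℂ) ^ n * T'.det := by
    conv_lhs => rw [h1]
    rw [ContinuousLinearMap.det, ContinuousLinearMap.toLinearMap_smul, LinearMap.det_smul]
    simp [ContinuousLinearMap.det]
  rw [h3, norm_mul, norm_pow, Complex.norm_real, Real.norm_of_nonneg hb0, mul_comm]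
  gcongr
  exact hK T' (mem_closedBall_zero_iff.mpr h2)

lemma det_comp {n : ℕ} (A B : En n →L[ℂ] En n) : (A.comp B).det = A.det * B.det := by
  rw [ContinuousLinearMap.det, ContinuousLinearMap.toLinearMap_comp, LinearMap.det_comp]

end StepA

theorem discEst {n : ℕ} (S : St n) : S.DiscEst := by
  intro g R X hR hg hm hX
  set a := S.F (g 0) with ha
  have h0 : (0 : ℂ) ∈ ball (0 : ℂ) R := mem_ball_self hR
  have hlt : ∀ y ∈ ball (0 : ℂ) R, ‖S.F (g y)‖ < 1 := fun y hy =>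
    mem_ball_zero_iff.mp (S.mF (hm hy))
  have ha1 : ‖a‖ < 1 := hlt 0 h0
  set σ := 1 - ‖a‖ with hσ
  have hσ0 : 0 < σ := by linarith
  have hf : DifferentiableOn ℂ (fun y => S.F (g y)) (ball 0 R) := S.hF.comp hg hm
  have hFd : HasFDerivAt S.F (fderiv ℂ S.F (g 0)) (g 0) :=
    (S.hF.differentiableAt (S.isOpen.mem_nhds (hm h0))).hasFDerivAt
  have hfd : HasDerivAt (fun y => S.F (g y)) (fderiv ℂ S.F (g 0) X) 0 :=
    hFd.comp_hasDerivAt (0 : ℂ) hX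
  set Q : ℂ → ℂ := fun y => 1 - ⟪a, S.F (g y)⟫_ℂ with hQ
  have hQd : DifferentiableOn ℂ Q (ball 0 R) :=
    ((innerSL ℂ a).differentiable.comp_differentiableOn hf).const_sub 1
  have hQ0 : HasDerivAt Q (-⟪a, fderiv ℂ S.F (g 0) X⟫_ℂ) 0 :=
    ((innerSL ℂ a).hasFDerivAt.comp_hasDerivAt (0 : ℂ) hfd).const_sub 1
  have hpos : ∀ y ∈ ball (0 : ℂ) R, 0 < (Q y).re := by
    intro y hy
    have h1 := norm_inner_le_norm (𝕜 := ℂ) a (S.F (g y))
    have h2 := Complex.re_le_norm ⟪a, S.F (g y)⟫_ℂ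
    have h3 := hlt y hy
    simp only [hQ, Complex.sub_re, Complex.one_re]
    nlinarith [norm_nonneg a, norm_nonneg (S.F (g y))]
  have hQv : Q 0 = ((1 - ‖a‖ ^ 2 : ℝ) : ℂ) := by
    simp only [hQ, ← ha]
    rw [inner_self_eq_norm_sq_to_K]
    simp
  have hle : 1 - ‖a‖ ^ 2 ≤ 2 * σ := by nlinarith [norm_nonneg a]
  have hge : 0 ≤ 1 - ‖a‖ ^ 2 := by nlinarith [norm_nonneg a]
  have hsub : ball (0 : ℂ) (R / 2) ⊆ ball 0 R := ball_subset_ball (by linarith)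
  have hH : ∀ y ∈ ball (0 : ℂ) (R / 2), ‖Q y - Q 0‖ ≤ 4 * σ := by
    intro y hy
    have := harnack_upper hQd hpos hR (x := y)
      (by rw [sub_zero]; exact (mem_ball_zero_iff.mp hy).le)
    rw [hQv, Complex.ofReal_re] at this
    rw [hQv]
    linarith
  constructor
  · have := Complex.norm_deriv_le_div_of_mapsTo_ball (hQd.mono hsub) (R₂ := 4 * σ)
      (fun y hy => by rw [mem_closedBall, dist_eq_norm]; exact hH y hy) (half_pos hR)
    rw [hQ0.deriv, norm_neg] at this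
    refine this.trans_eq ?_
    field_simp
    ring
  · have := Complex.norm_deriv_le_div_of_mapsTo_ball (hf.mono hsub) (R₂ := 4 * Real.sqrt σ)
      (fun y hy => by
        rw [mem_closedBall, dist_eq_norm]
        have h1 := norm_sub_sq_le_dd (x := a) (w := S.F (g y)) ha1.le (hlt y (hsub hy)).le
        rw [dd_comm] at h1
        have h2 : dd (S.F (g y)) a = ‖Q y‖ := rfl
        have h3 : ‖Q y‖ ≤ 6 * σ := by
          have h4 := norm_add_le (Q y - Q 0) (Q 0)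
          rw [sub_add_cancel] at h4
          have h5 : ‖Q 0‖ = 1 - ‖a‖ ^ 2 := by
            rw [hQv, Complex.norm_real, Real.norm_of_nonneg hge]
          linarith [hH y hy]
        apply le_of_sq_le_sq _ (by positivity) |>.trans le_rfl
        rw [mul_pow, Real.sq_sqrt hσ0.le]
        linarith) (half_pos hR)
    rw [hfd.deriv] at this
    refine this.trans_eq ?_
    field_simp
    ring

theorem det_bound {n : ℕ} (S : St n) : ∃ K : ℝ, ∀ z ∈ S.Ω, ∀ (A : En n →L[ℂ] En n) (B : ℝ), (∀ X : En n, ‖X‖ = 1 → ‖⟪S.F z, fderiv ℂ S.F z (A X)⟫_ℂ‖ ≤ B * (1 - ‖S.F z‖) ∧ ‖fderiv ℂ S.F z (A X)‖ ≤ B * Real.sqrt (1 - ‖S.F z‖)) → ‖jac S.F z‖ ^ 2 * ‖A.det‖ ^ 2 ≤ K * B ^ (2 * n) * (1 - ‖S.F z‖) ^ (n + 1) := by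
  obtain ⟨K, hK0, hK⟩ := StepA.det_le n
  refine ⟨(4 * K * 2 ^ n) ^ 2, fun z hz A B h => ?_⟩
  set a := S.F z with ha
  have ha1 : ‖a‖ < 1 := mem_ball_zero_iff.mp (S.mF hz)
  set σ := 1 - ‖a‖ with hσ
  have hσ0 : 0 < σ := by linarith
  set q := Real.sqrt σ with hq
  have hq0 : 0 < q := Real.sqrt_pos.mpr hσ0
  have hq2 : q ^ 2 = σ := Real.sq_sqrt hσ0.le
  have hq1 : q ≤ 1 := by
    rw [hq, Real.sqrt_le_one]
    linarith [norm_nonneg a]
  have hqi : 1 ≤ q⁻¹ := (one_le_inv₀ hq0).mpr hq1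
  set b := |B| with hb
  have hb0 : 0 ≤ b := abs_nonneg B
  set P := rk ((q⁻¹ : ℝ) : ℂ) (((q⁻¹ - 1 : ℝ) : ℂ) • innerSL ℂ a) a with hP
  set T := P.comp ((fderiv ℂ S.F z).comp A) with hT
  have hTn : ‖T‖ ≤ 2 * b := by
    apply ContinuousLinearMap.opNorm_le_of_unit_norm (by positivity)
    intro X hX
    obtain ⟨h1, h2⟩ := h X hX
    set Y := fderiv ℂ S.F z (A X) with hY
    have h1' : ‖⟪a, Y⟫_ℂ‖ ≤ b * q ^ 2 := by
      rw [hq2]; exact h1.trans (mul_le_mul_of_nonneg_right (le_abs_self B) hσ0.le)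
    have h2' : ‖Y‖ ≤ b * q := h2.trans (mul_le_mul_of_nonneg_right (le_abs_self B) hq0.le)
    have e : T X = ((q⁻¹ : ℝ) : ℂ) • (Y + (((q⁻¹ - 1 : ℝ) : ℂ) * ⟪a, Y⟫_ℂ) • a) := by
      simp only [hT, hP, ContinuousLinearMap.comp_apply, rk_apply, smul_apply,
        innerSL_apply_apply, smul_eq_mul, hY]
    rw [e, norm_smul, Complex.norm_real, Real.norm_of_nonneg (by positivity),
      inv_mul_le_iff₀ hq0]
    refine (norm_add_le _ _).trans ?_
    rw [norm_smul, norm_mul, Complex.norm_real, Real.norm_of_nonneg (by linarith)]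
    have h3 : (q⁻¹ - 1) * ‖⟪a, Y⟫_ℂ‖ * ‖a‖ ≤ q⁻¹ * (b * q ^ 2) * 1 := by
      gcongr
      linarith
    have h4 : q⁻¹ * (b * q ^ 2) * 1 = b * q := by field_simp
    nlinarith
  have hdP : ‖P.det‖ = q⁻¹ ^ n * (1 + (q⁻¹ - 1) * ‖a‖ ^ 2) := by
    rw [hP, det_rk]
    simp only [smul_apply, innerSL_apply_apply, smul_eq_mul]
    rw [inner_self_eq_norm_sq_to_K]
    have e : (1 : ℂ) + ((q⁻¹ - 1 : ℝ) : ℂ) * ((‖a‖ : ℝ) : ℂ) ^ 2 =
        ((1 + (q⁻¹ - 1) * ‖a‖ ^ 2 : ℝ) : ℂ) := by push_cast; ring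
    simp only [Complex.coe_algebraMap]
    rw [e, norm_mul, norm_pow, Complex.norm_real, Complex.norm_real,
      Real.norm_of_nonneg (by positivity), Real.norm_of_nonneg]
    have : 0 ≤ q⁻¹ - 1 := by linarith
    positivity
  have hlow : q⁻¹ / 4 ≤ 1 + (q⁻¹ - 1) * ‖a‖ ^ 2 := by
    have e : ‖a‖ = 1 - q ^ 2 := by rw [hq2]; ring
    have h1 : 1 / 4 ≤ q + (1 - q) * ‖a‖ ^ 2 := by
      by_cases h : 1 / 4 ≤ q
      · have : 0 ≤ (1 - q) * ‖a‖ ^ 2 := mul_nonneg (by linarith) (by positivity)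
        linarith
      · push Not at h
        have h2 : 3 / 4 ≤ ‖a‖ := by rw [e]; nlinarith
        have h3 : 9 / 16 ≤ ‖a‖ ^ 2 := by nlinarith
        nlinarith
    have e2 : 1 + (q⁻¹ - 1) * ‖a‖ ^ 2 = q⁻¹ * (q + (1 - q) * ‖a‖ ^ 2) := by field_simp
    rw [e2, div_eq_mul_one_div]
    gcongr
  have hdT := hK T _ hTn
  rw [hT, StepA.det_comp, StepA.det_comp, norm_mul, norm_mul, hdP] at hdT
  have hmain : ‖jac S.F z‖ * ‖A.det‖ ≤ 4 * K * 2 ^ n * b ^ n * q ^ (n + 1) := by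
    have h1 : q⁻¹ ^ n * (q⁻¹ / 4) * (‖jac S.F z‖ * ‖A.det‖) ≤ K * (2 * b) ^ n := by
      refine le_trans ?_ hdT
      unfold jac
      gcongr
    have h2 : ‖jac S.F z‖ * ‖A.det‖ =
        4 * q ^ (n + 1) * (q⁻¹ ^ n * (q⁻¹ / 4) * (‖jac S.F z‖ * ‖A.det‖)) := by
      rw [inv_pow]
      field_simp
      ring
    rw [h2]
    calc _ ≤ 4 * q ^ (n + 1) * (K * (2 * b) ^ n) := by gcongr
      _ = _ := by rw [mul_pow]; ring
  have hbB : B ^ (2 * n) = (b ^ n) ^ 2 := by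
    rw [← pow_mul, mul_comm n 2, pow_mul, pow_mul, hb, sq_abs]
  calc _ = (‖jac S.F z‖ * ‖A.det‖) ^ 2 := by ring
    _ ≤ (4 * K * 2 ^ n * b ^ n * q ^ (n + 1)) ^ 2 := by gcongr
    _ = _ := by rw [hbB, ← hq2]; ring

end Pool.Agent.H809Z.Ball
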