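import Pool.Agent.H946Z.Ball.DiscEst

open scoped Topology ENNReal InnerProductSpace
open Filter Metric Set MeasureTheory

namespace Pool.Agent.H809Z.Ball

namespace StepA

variable {n : ℕ}

/-- the disc estimate along a linear disc -/
lemma lin_disc (S : St n) {z Y : En n} {r : ℝ} (hr : 0 < r)
    (h : ∀ x : ℂ, ‖x‖ < r → z + x • Y ∈ S.Ω) :
    ‖⟪S.F z, fderiv ℂ S.F z Y⟫_ℂ‖ ≤ 8 / r * (1 - ‖S.F z‖) ∧
      ‖fderiv ℂ S.F z Y‖ ≤ 8 / r * Real.sqrt (1 - ‖S.F z‖) := by
  have hd : HasDerivAt (fun x : ℂ => z + x • Y) Y 0 := by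
    simpa using ((hasDerivAt_id (0 : ℂ)).smul_const Y).const_add z
  have := discEst S (fun x => z + x • Y) r Y hr (by fun_prop)
    (fun x hx => h x (mem_ball_zero_iff.mp hx)) hd
  simp only [zero_smul, add_zero] at this
  constructor
  · refine this.1.trans_eq ?_; ring
  · refine this.2.trans_eq ?_; ring

lemma near (S : St n) : ∃ d₁ C : ℝ, 0 < d₁ ∧ ∀ z ∈ S.Ω, -S.ρ z ≤ d₁ →
    ‖jac S.F z‖ ^ 2 * (-S.ρ z) ^ (n + 1) ≤ C * (1 - ‖S.F z‖) ^ (n + 1) := by
  obtain ⟨K, hK⟩ := det_bound S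
  obtain ⟨R, hR1, hR⟩ := S.exists_radius
  obtain ⟨d₀, C, hd₀, hC, hN⟩ := S.normal
  obtain ⟨T, hT, ht⟩ := S.taylor R
  set e := 1 / (4 * (T + 1)) with he
  have he0 : 0 < e := by positivity
  have he1 : e * (4 * (T + 1)) = 1 := by rw [he]; field_simp
  have he2 : e ≤ 1 / 4 := by nlinarith
  have he3 : T * e ≤ 1 / 4 := by nlinarith
  set c := e / (1 + C ^ 2) with hc
  have hc0 : 0 < c := by positivity
  have hc1 : c * (1 + C ^ 2) = e := by rw [hc]; field_simp
  refine ⟨min d₀ 1, K * (8 / c) ^ (2 * n), by positivity, fun z hz hd => ?_⟩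
  have hz0 : S.ρ z < 0 := S.mem_iff.mp hz
  set d := -S.ρ z with hdd
  have hd0 : 0 < d := by linarith
  have hd1 : d ≤ 1 := hd.trans (min_le_right _ _)
  obtain ⟨hν, N, hN1, hN2⟩ := hN z (by linarith [hd.trans (min_le_left _ _)]) hz0.le
  set ν := cx (fderiv ℝ S.ρ z) with hνd
  set q := Real.sqrt d with hq
  have hq0 : 0 < q := Real.sqrt_pos.mpr hd0
  have hq2 : q ^ 2 = d := Real.sq_sqrt hd0.le
  have hq1 : q ≤ 1 := by rw [hq, Real.sqrt_le_one]; exact hd1
  set A := rk (q : ℂ) (((q - 1 : ℝ) : ℂ) • ν) N with hA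
  have hdet : ‖A.det‖ ^ 2 = d ^ (n + 1) := by
    rw [hA, det_rk]
    simp only [smul_apply, hN1, smul_eq_mul, mul_one]
    have : (1 : ℂ) + ((q - 1 : ℝ) : ℂ) = q := by push_cast; ring
    rw [this, ← pow_succ, norm_pow, Complex.norm_real, Real.norm_of_nonneg hq0.le, ← hq2]
    ring
  have key := hK z hz A (8 / c) (fun X hX => lin_disc S hc0 fun x hx => by
    have hνX : ‖ν X‖ ≤ C := by
      have := ν.le_opNorm X
      rw [hX, mul_one] at this
      exact this.trans hν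
    have e1 : A X = (q : ℂ) • (X + (((q - 1 : ℝ) : ℂ) * ν X) • N) := by
      simp only [hA, rk_apply, smul_apply, smul_eq_mul]
    have e2 : ν (x • A X) = x * ((d : ℂ) * ν X) := by
      rw [e1, map_smul, map_smul, map_add, map_smul, hN1, ← hq2]
      simp only [smul_eq_mul]
      push_cast
      ring
    have n1 : ‖A X‖ ≤ q * (1 + C ^ 2) := by
      rw [e1, norm_smul, Complex.norm_real, Real.norm_of_nonneg hq0.le]
      gcongr
      refine (norm_add_le _ _).trans ?_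
      rw [hX, norm_smul, norm_mul, Complex.norm_real, Real.norm_eq_abs]
      have h1 : |q - 1| ≤ 1 := abs_le.mpr ⟨by linarith, by linarith⟩
      have h2 : |q - 1| * ‖ν X‖ * ‖N‖ ≤ 1 * C * C := by gcongr
      nlinarith
    have n2 : ‖x • A X‖ ≤ q * e := by
      rw [norm_smul]
      calc _ ≤ c * (q * (1 + C ^ 2)) := by gcongr
        _ = q * (c * (1 + C ^ 2)) := by ring
        _ = q * e := by rw [hc1]
    have t1 := ht z (x • A X) (hR z hz0.le) (by nlinarith)
    have t2 : fderiv ℝ S.ρ z (x • A X) ≤ d / 4 := by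
      rw [← cx_re, ← hνd, e2]
      refine (Complex.re_le_norm _).trans ?_
      rw [norm_mul, norm_mul, Complex.norm_real, Real.norm_of_nonneg hd0.le]
      have h1 : c * C ≤ 1 / 4 := by
        have : C ≤ 1 + C ^ 2 := by nlinarith
        have : c * C ≤ c * (1 + C ^ 2) := by gcongr
        linarith
      calc _ ≤ c * (d * C) := by gcongr
        _ = d * (c * C) := by ring
        _ ≤ d * (1 / 4) := by gcongr
        _ = d / 4 := by ring
    have t3 : T * ‖x • A X‖ ^ 2 ≤ d / 4 := by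
      calc _ ≤ T * (q * e) ^ 2 := by gcongr
        _ = d * ((T * e) * e) := by rw [← hq2]; ring
        _ ≤ d * ((1 / 4) * 1) := by gcongr; linarith
        _ = d / 4 := by ring
    rw [S.mem_iff]
    have := (abs_le.mp t1).2
    linarith)
  rwa [hdet] at key

lemma far (S : St n) {d₁ : ℝ} (hd₁ : 0 < d₁) : ∃ C : ℝ, ∀ z ∈ S.Ω, d₁ ≤ -S.ρ z →
    ‖jac S.F z‖ ^ 2 * (-S.ρ z) ^ (n + 1) ≤ C * (1 - ‖S.F z‖) ^ (n + 1) := by
  obtain ⟨K, hK⟩ := det_bound S
  obtain ⟨R, hR1, hR⟩ := S.exists_radius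
  obtain ⟨L, hL, hl⟩ := S.lip (R + 1)
  obtain ⟨p, hp⟩ := S.hne
  set r := min 1 (d₁ / L) with hr
  have hr0 : 0 < r := by positivity
  refine ⟨K * (8 / r) ^ (2 * n) * (L * (R + R)) ^ (n + 1), fun z hz hd => ?_⟩
  have hz0 : S.ρ z < 0 := S.mem_iff.mp hz
  have hzR := hR z hz0.le
  have key := hK z hz (ContinuousLinearMap.id ℂ _) (8 / r) (fun X hX => lin_disc S hr0
    fun x hx => by
      have n1 : ‖x • X‖ = ‖x‖ := by rw [norm_smul, hX, mul_one]
      have x1 : ‖x‖ < 1 := hx.trans_le (min_le_left _ _)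
      have x2 : ‖x‖ < d₁ / L := hx.trans_le (min_le_right _ _)
      rw [lt_div_iff₀ hL] at x2
      have n2 : ‖z + x • X‖ ≤ R + 1 := by
        have := norm_add_le z (x • X)
        linarith
      have := (hl z (z + x • X) (by linarith) n2).2.2.1
      rw [add_sub_cancel_left, n1] at this
      rw [ContinuousLinearMap.id_apply, S.mem_iff]
      have := (abs_le.mp this).2
      linarith)
  have hdet : (ContinuousLinearMap.id ℂ (En n)).det = 1 := by
    simp [ContinuousLinearMap.det]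
  rw [hdet, norm_one, one_pow, mul_one] at key
  have hpR := hR p hp.le
  have hb : -S.ρ z ≤ L * (R + R) := by
    have h1 := (hl z p (by linarith) (by linarith)).2.2.1
    have h2 := norm_sub_le p z
    rw [hp, zero_sub] at h1
    have h3 : L * ‖p - z‖ ≤ L * (R + R) := by gcongr; linarith
    linarith [le_abs_self (-S.ρ z)]
  have h0 : 0 ≤ -S.ρ z := by linarith
  calc _ ≤ (K * (8 / r) ^ (2 * n) * (1 - ‖S.F z‖) ^ (n + 1)) * (L * (R + R)) ^ (n + 1) := by
        apply mul_le_mul key (by gcongr) (by positivity) ((sq_nonneg _).trans key)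
    _ = _ := by ring

end StepA

theorem stepA {n : ℕ} (S : St n) : S.StepA := by
  obtain ⟨d₁, C₁, hd₁, h₁⟩ := StepA.near S
  obtain ⟨C₂, h₂⟩ := StepA.far S hd₁
  refine ⟨max C₁ C₂, fun z hz => ?_⟩
  have h0 : 0 ≤ (1 - ‖S.F z‖) ^ (n + 1) := by
    have := mem_ball_zero_iff.mp (S.mF hz)
    apply pow_nonneg
    linarith
  rcases le_total (-S.ρ z) d₁ with h | h
  · exact (h₁ z hz h).trans (mul_le_mul_of_nonneg_right (le_max_left _ _) h0)
  · exact (h₂ z hz h).trans (mul_le_mul_of_nonneg_right (le_max_right _ _) h0)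

end Pool.Agent.H809Z.Ball
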